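import Pool.Agent.Q315.RD

/-!
# The numbers `m` and `2 m - 1` for `m` with restricted digits, in short intervals

Let `g ≥ 2` be a base and `K` a large number of digits. For every `i < K` let `A i` be an arbitrary non-empty set of digits. Nothing
is assumed about these sets except that they are not too small on average: the number `|A 0| ⋯ |A (K - 1)|` of the integers
`t < g ^ K` whose `i`-th digit belongs to `A i` for all `i < K` is at least `exp (- c K) g ^ K`, where `c > 0` does not depend on the
base (`Rich`; for example, a digit is missing everywhere and the base is large, or the digits at an arbitrary set of at most `c' K`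
places are prescribed). Let `1 ≤ N ≤ g ^ (E K)` be arbitrary, so that the interval `[N, N + g ^ K)` may be very short.

The number of the integers `m = N + t` in this interval with these `t` for which `m` and `2 m - 1` have at most `r` prime
factors, all larger than `g ^ (K / r)`, is at least `κ V |A 0| ⋯ |A (K - 1)|`, unless there is an obvious obstruction (no digit `d` in
`A 0` such that `N + d` and `2 (N + d) - 1` are prime to `g`); here `V` is the product of `1 - ν (p) / p` over the primes
`p ≤ g ^ K`, where `ν (p)` is the number of the zeros of `X (2 X - 1)` modulo `p`, the expected order. The number of the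
`m = N + t` for which `m` and `2 m - 1` are primes is at most `C V |A 0| ⋯ |A (K - 1)|`. The constants are independent of the
sets `A i` and of `N`.

Proof. The theorem on almost prime values of polynomials at integers with restricted digits, uniform in the polynomial, of the
starting library (`Pool.Agent.Y816.PD.uni_fun`).
-/

set_option autoImplicit false

namespace Pool.Agent.Results.MP_0fefc4_nt.RestrictedDigits

open Filter Finset Polynomial
open Pool.Agent.Q315.RD

lemma adm (p : ℕ) (hp : p.Prime) :
    ∃ n : ℕ, ∀ i, ¬ (p : ℤ) ∣ ((![X, C 2 * X - 1] : Fin 2 → ℤ[X]) i).eval (n : ℤ) := by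
  have h1 : ¬ (p : ℤ) ∣ 1 := fun h => hp.one_lt.ne' (by exact_mod_cast Int.eq_one_of_dvd_one (by omega) h)
  refine ⟨1, fun i hi => ?_⟩
  fin_cases i
  · exact h1 (by simpa using hi)
  · exact h1 (by
      simp at hi
      simpa using hi)

/-- **`m` and `2 m - 1` almost prime, for `m` with restricted digits, in all short intervals.** -/
theorem result (E : ℕ) :
    ∃ c : ℝ, 0 < c ∧ ∃ r₀ : ℕ, 2 ≤ r₀ ∧ ∀ r : ℕ, r₀ ≤ r → ∀ g : ℕ, 2 ≤ g → ∃ κ C : ℝ, 0 < κ ∧ 0 < C ∧
      ∀ᶠ K : ℕ in atTop, ∀ N : ℕ, 1 ≤ N → N ≤ g ^ (E * K) → ∀ A : ℕ → Finset ℕ, Rich c g K A →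
        ((∃ d ∈ A 0, (N + d).Coprime g ∧ (2 * (N + d) - 1).Coprime g) →
          κ * rootDensity (fun n => (n : ℤ) * (2 * n - 1)) (g ^ K) * choices K A ≤
            count g K A fun t => AlmostPrime (g ^ K) r (N + t) ∧ AlmostPrime (g ^ K) r (2 * (N + t) - 1)) ∧
        (count g K A (fun t => (N + t).Prime ∧ (2 * (N + t) - 1).Prime) : ℝ) ≤
          C * rootDensity (fun n => (n : ℤ) * (2 * n - 1)) (g ^ K) * choices K A := by
  obtain ⟨c, hc, r₀, hr₀, h⟩ := shifted ![X, C 2 * X - 1] ![fun m => m, fun m => 2 * m - 1] 1
    (fun i n hn => by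
      fin_cases i
      · simp
      · have : 1 ≤ 2 * n := by omega
        simp only [Fin.mk_one, Matrix.cons_val_one, Matrix.cons_val_fin_one]
        push_cast [Nat.cast_sub this]
        simp)
    (fun i n hn => by
      fin_cases i
      · simp
      · simp only [Fin.mk_one, Matrix.cons_val_one, Matrix.cons_val_fin_one]
        omega)
    adm E
  refine ⟨c, hc, r₀, hr₀, fun r hr g hg => ?_⟩
  obtain ⟨κ, C, hκ, hC, h1⟩ := h r hr g hg
  refine ⟨κ, C, hκ, hC, ?_⟩
  filter_upwards [h1] with K hK
  intro N hN1 hN A hA
  have h2 := hK N hN1 hN A hA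
  simpa only [Fin.forall_fin_two, Fin.prod_univ_two, Matrix.cons_val_zero, Matrix.cons_val_one, Matrix.cons_val_fin_one,
    eval_add, eval_sub, eval_mul, eval_C, eval_pow, eval_X, eval_one] using h2

end Pool.Agent.Results.MP_0fefc4_nt.RestrictedDigits
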